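import Pool.Agent.H14.EH.Defs

/-!
# EHP: the data of `FF (l,t) = F (l, B(t))`
-/

set_option autoImplicit false

open MeasureTheory Set Filter Topology
open scoped Real Interval

noncomputable section

namespace Pool.Agent.H14.EH

open Pool.Agent.H15.EH

def Bp1 (e : ℝ) : ℝ → ℝ := sm1 (2 * e) e
def Bp2 (e : ℝ) : ℝ → ℝ := sm2 (2 * e) e

theorem hasDerivAt_Bp {e : ℝ} (he : 0 < e) (t : ℝ) : HasDerivAt (Bp e) (Bp1 e t) t :=
  hasDerivAt_sm he t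

theorem hasDerivAt_Bp1 {e : ℝ} (t : ℝ) : HasDerivAt (Bp1 e) (Bp2 e t) t :=
  hasDerivAt_sm1 t

theorem continuous_Bp (e : ℝ) : Continuous (Bp e) := continuous_sm _ _
theorem continuous_Bp1 (e : ℝ) : Continuous (Bp1 e) := continuous_sm1 _ _
theorem continuous_Bp2 (e : ℝ) : Continuous (Bp2 e) := continuous_sm2 _ _

theorem Bp_ge {e : ℝ} (he : 0 < e) (t : ℝ) : 2 * e ≤ Bp e t := c_le_sm he _ _
theorem Bp_pos {e : ℝ} (he : 0 < e) (t : ℝ) : 0 < Bp e t := by linarith [Bp_ge he t]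
theorem le_Bp {e : ℝ} (he : 0 < e) (t : ℝ) : t ≤ Bp e t := le_sm he _ _
theorem Bp_le_max {e : ℝ} (he : 0 < e) (t : ℝ) : Bp e t ≤ max t (3 * e) := by
  have h := sm_le_max he (2 * e) t
  have h2 : 2 * e + e = 3 * e := by ring
  rwa [h2] at h
theorem Bp_of_le {e t : ℝ} (he : 0 < e) (h : t ≤ e) : Bp e t = 2 * e :=
  sm_of_le he (by linarith)
theorem Bp_of_ge {e t : ℝ} (he : 0 < e) (h : 3 * e ≤ t) : Bp e t = t :=
  sm_of_ge he (by linarith)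
theorem Bp1_of_le {e t : ℝ} (he : 0 < e) (h : t ≤ e) : Bp1 e t = 0 :=
  sm1_of_le he (by linarith)
theorem Bp1_of_ge {e t : ℝ} (he : 0 < e) (h : 3 * e ≤ t) : Bp1 e t = 1 :=
  sm1_of_ge he (by linarith)
theorem Bp2_of_le {e t : ℝ} (he : 0 < e) (h : t ≤ e) : Bp2 e t = 0 :=
  sm2_of_le he (by linarith)
theorem Bp2_of_ge {e t : ℝ} (he : 0 < e) (h : 3 * e ≤ t) : Bp2 e t = 0 :=
  sm2_of_ge he (by linarith)
theorem Bp1_nonneg (e t : ℝ) : 0 ≤ Bp1 e t := sm1_nonneg _ _ _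
theorem Bp1_le (e t : ℝ) : Bp1 e t ≤ 1 := sm1_le _ _ _
theorem Bp2_nonneg {e : ℝ} (he : 0 < e) (t : ℝ) : 0 ≤ Bp2 e t := sm2_nonneg he _ _
theorem Bp2_le {e : ℝ} (he : 0 < e) (t : ℝ) : Bp2 e t ≤ 3 / (4 * e) := sm2_le he _ _

section
variable (F Fl Fg Fll Flg Fgg Fllg : ℝ → ℝ → ℝ) (e : ℝ)

def FF (l t : ℝ) : ℝ := F l (Bp e t)
def FFl (l t : ℝ) : ℝ := Fl l (Bp e t)
def FFg (l t : ℝ) : ℝ := Fg l (Bp e t) * Bp1 e t
def FFll (l t : ℝ) : ℝ := Fll l (Bp e t)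
def FFlg (l t : ℝ) : ℝ := Flg l (Bp e t) * Bp1 e t
def FFgg (l t : ℝ) : ℝ := Fgg l (Bp e t) * Bp1 e t ^ 2 + Fg l (Bp e t) * Bp2 e t
def FFllg (l t : ℝ) : ℝ := Fllg l (Bp e t) * Bp1 e t

end

theorem cont_comp_Bp {f : ℝ → ℝ → ℝ} (hf : ContinuousOn (fun x : ℝ × ℝ => f x.1 x.2) U)
    {e : ℝ} (he : 0 < e) : Continuous (fun x : ℝ × ℝ => f x.1 (Bp e x.2)) := by
  have h1 : Continuous (fun x : ℝ × ℝ => ((x.1, Bp e x.2) : ℝ × ℝ)) :=
    continuous_fst.prodMk ((continuous_Bp e).comp continuous_snd)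
  exact hf.comp_continuous h1 (fun x => Bp_pos he x.2)

variable {F Fl Fg Fll Flg Fgg Fllg : ℝ → ℝ → ℝ} {e : ℝ}

/-- `FF` satisfies `FData` -/
theorem fdata_FF (h : FData F Fl Fg Fll Flg Fgg Fllg) (he : 0 < e) :
    FData (FF F e) (FFl Fl e) (FFg Fg e) (FFll Fll e) (FFlg Flg e) (FFgg Fg Fgg e) (FFllg Fllg e) := by
  have c1 : Continuous (fun x : ℝ × ℝ => Bp1 e x.2) := (continuous_Bp1 e).comp continuous_snd
  have c2 : Continuous (fun x : ℝ × ℝ => Bp2 e x.2) := (continuous_Bp2 e).comp continuous_snd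
  refine ⟨?_, ?_, ?_, ?_, ?_, ?_, ?_, ?_, ?_, ?_, ?_, ?_, ?_, ?_⟩
  · intro l g _
    exact h.dl l _ (Bp_pos he g)
  · intro l g _
    exact (h.dg l _ (Bp_pos he g)).comp g (hasDerivAt_Bp he g)
  · intro l g _
    exact h.dll l _ (Bp_pos he g)
  · intro l g _
    exact (h.dlg l _ (Bp_pos he g)).comp g (hasDerivAt_Bp he g)
  · intro l g _
    exact (h.dgl l _ (Bp_pos he g)).mul_const _
  · intro l g _
    have h1 := ((h.dgg l _ (Bp_pos he g)).comp g (hasDerivAt_Bp he g)).fun_mul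
      (hasDerivAt_Bp1 (e := e) g)
    refine h1.congr_deriv ?_
    simp only [Function.comp, FFgg]
    ring
  · intro l g _
    exact (h.dllg l _ (Bp_pos he g)).comp g (hasDerivAt_Bp he g)
  · intro l g _
    exact (h.dlgl l _ (Bp_pos he g)).mul_const _
  · exact (cont_comp_Bp h.cl he).continuousOn
  · exact ((cont_comp_Bp h.cg he).mul c1).continuousOn
  · exact (cont_comp_Bp h.cll he).continuousOn
  · exact ((cont_comp_Bp h.clg he).mul c1).continuousOn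
  · exact (((cont_comp_Bp h.cgg he).mul (c1.pow 2)).add ((cont_comp_Bp h.cg he).mul c2)).continuousOn
  · exact ((cont_comp_Bp h.cllg he).mul c1).continuousOn

/-- the determinant of `FF` -/
theorem D_FF (Fg Fll Flg Fgg : ℝ → ℝ → ℝ) (e l t : ℝ) :
    Pool.Agent.H15.EH.D (FFll Fll e) (FFlg Flg e) (FFgg Fg Fgg e) l t =
      Bp1 e t ^ 2 * (Flg l (Bp e t) ^ 2 - Fll l (Bp e t) * Fgg l (Bp e t)) -
        Bp2 e t * (Fll l (Bp e t) * Fg l (Bp e t)) := by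
  unfold Pool.Agent.H15.EH.D FFll FFlg FFgg
  ring

theorem FFg_of_le (Fg : ℝ → ℝ → ℝ) {l t : ℝ} (he : 0 < e) (ht : t ≤ e) : FFg Fg e l t = 0 := by
  unfold FFg
  rw [Bp1_of_le he ht, mul_zero]

theorem D_FF_of_le (Fg Fll Flg Fgg : ℝ → ℝ → ℝ) {l t : ℝ} (he : 0 < e) (ht : t ≤ e) :
    Pool.Agent.H15.EH.D (FFll Fll e) (FFlg Flg e) (FFgg Fg Fgg e) l t = 0 := by
  rw [D_FF, Bp1_of_le he ht, Bp2_of_le he ht]
  ring

/-- `q` of `FF` with base point `e` -/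
theorem q_FF (Fl Fg Fll Flg Fgg : ℝ → ℝ → ℝ) (he : 0 < e) (l g : ℝ) :
    q (FFl Fl e) (FFg Fg e) (FFll Fll e) (FFlg Flg e) (FFgg Fg Fgg e) e l g =
      Fl l (2 * e) ^ 2 + 2 * ∫ t in e..g, (g - t) *
        Pool.Agent.H15.EH.D (FFll Fll e) (FFlg Flg e) (FFgg Fg Fgg e) l t := by
  unfold q
  rw [FFg_of_le Fg he le_rfl]
  have : FFl Fl e l e = Fl l (2 * e) := by
    unfold FFl
    rw [Bp_of_le he le_rfl]
  rw [this]
  ring

/-- `H` of `FF` vanishes for `g ≤ e` -/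
theorem H_FF_of_le (Fg : ℝ → ℝ → ℝ) {l g : ℝ} (he : 0 < e) (hg : g ≤ e) :
    H (FFg Fg e) e l g = 0 := by
  unfold H
  have : ∀ t ∈ uIcc e g, FFg Fg e l t ^ 2 = 0 := by
    intro t ht
    have h1 : t ≤ e := ht.2.trans (max_le le_rfl hg)
    rw [FFg_of_le Fg he h1]
    ring
  rw [intervalIntegral.integral_congr this]
  simp

end Pool.Agent.H14.EH
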